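import Pool.Agent.U722.FF.Stm3

/-! Project LI, package POT: invariant potentials.  The first part (path potentials) is the
beginning of the library file N24/TR/Tree. -/

set_option autoImplicit false

namespace Pool.Agent.U873.LIP

open U722.FF SimpleGraph MulAction

section walks

variable {V M : Type} {T : SimpleGraph V} [Group M]

/-- the product of the values of `e` along a walk -/
def wp (e : V → V → M) : ∀ {u v : V}, T.Walk u v → M
  | _, _, .nil => 1
  | u, _, .cons (v := v) _ p => e u v * wp e p

@[simp] theorem wp_nil (e : V → V → M) (u : V) : wp e (Walk.nil : T.Walk u u) = 1 := rfl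

@[simp] theorem wp_cons (e : V → V → M) {u v w : V} (h : T.Adj u v) (p : T.Walk v w) :
    wp e (Walk.cons h p) = e u v * wp e p := rfl

theorem wp_append (e : V → V → M) {u v w : V} (p : T.Walk u v) (q : T.Walk v w) :
    wp e (p.append q) = wp e p * wp e q := by
  induction p with
  | nil => simp
  | cons h p ih => simp [ih, mul_assoc]

theorem wp_bypass (hT : T.IsAcyclic) [DecidableEq V] (e : V → V → M)
    (he : ∀ u v, T.Adj u v → e u v * e v u = 1) {u v : V} (p : T.Walk u v) :
    wp e p = wp e p.bypass := by
  induction p with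
  | nil => rfl
  | @cons u v w h p ih =>
    rw [wp_cons, ih]
    by_cases hs : u ∈ p.bypass.support
    · have h1 : (p.bypass).takeUntil u hs = Walk.cons h.symm Walk.nil := by
        have := (hT.subsingleton_path v u).elim ⟨_, p.bypass_isPath.takeUntil hs⟩
          (Path.singleton h.symm)
        exact congrArg Subtype.val this
      have h2 : (p.bypass.takeUntil u hs).append (p.bypass.dropUntil u hs) = p.bypass :=
        Walk.take_spec _ _
      have h3 : (Walk.cons h p).bypass = p.bypass.dropUntil u hs := by simp [Walk.bypass, hs]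
      rw [h3]
      have h4 : wp e p.bypass = e v u * wp e (p.bypass.dropUntil u hs) := by
        conv_lhs => rw [← h2]
        rw [wp_append, h1, wp_cons, wp_nil, mul_one]
      rw [h4, ← mul_assoc, he u v h, one_mul]
    · have h3 : (Walk.cons h p).bypass = Walk.cons h p.bypass := by simp [Walk.bypass, hs]
      rw [h3, wp_cons]

theorem wp_eq (hT : T.IsAcyclic) (e : V → V → M)
    (he : ∀ u v, T.Adj u v → e u v * e v u = 1) {u v : V} (p q : T.Walk u v) :
    wp e p = wp e q := by
  classical
  rw [wp_bypass hT e he p, wp_bypass hT e he q]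
  have h1 := (hT.subsingleton_path u v).elim ⟨_, p.bypass_isPath⟩ ⟨_, q.bypass_isPath⟩
  have h2 : p.bypass = q.bypass := congrArg Subtype.val h1
  rw [h2]

/-- the product along the walks between two vertices -/
noncomputable def gam (hT : T.IsTree) (e : V → V → M) (u v : V) : M :=
  wp e (hT.connected.preconnected u v).some

theorem gam_eq (hT : T.IsTree) (e : V → V → M)
    (he : ∀ u v, T.Adj u v → e u v * e v u = 1) {u v : V} (p : T.Walk u v) :
    gam hT e u v = wp e p := wp_eq hT.isAcyclic e he _ _

theorem gam_mul (hT : T.IsTree) (e : V → V → M)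
    (he : ∀ u v, T.Adj u v → e u v * e v u = 1) (u v w : V) :
    gam hT e u v * gam hT e v w = gam hT e u w := by
  rw [gam_eq hT e he ((hT.connected.preconnected u v).some.append
    (hT.connected.preconnected v w).some), wp_append]
  rfl

theorem gam_self (hT : T.IsTree) (e : V → V → M)
    (he : ∀ u v, T.Adj u v → e u v * e v u = 1) (u : V) : gam hT e u u = 1 := by
  rw [gam_eq hT e he (Walk.nil : T.Walk u u), wp_nil]

theorem gam_adj (hT : T.IsTree) (e : V → V → M)
    (he : ∀ u v, T.Adj u v → e u v * e v u = 1) {u v : V} (h : T.Adj u v) :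
    gam hT e u v = e u v := by
  rw [gam_eq hT e he (Walk.cons h Walk.nil), wp_cons, wp_nil, mul_one]

end walks

section action

variable {G V M : Type} {T : SimpleGraph V} [Group G] [MulAction G V] [Group M]

/-- the action of `g` as an endomorphism of the graph -/
def shift (hact : ∀ (g : G) (u v : V), T.Adj u v → T.Adj (g • u) (g • v)) (g : G) : T →g T :=
  ⟨fun v => g • v, fun {u v} h => hact g u v h⟩

theorem wp_map (hact : ∀ (g : G) (u v : V), T.Adj u v → T.Adj (g • u) (g • v))
    (e : V → V → M) (g : G) (hφ : ∀ u v, e (g • u) (g • v) = e u v)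
    {u v : V} (p : T.Walk u v) : wp e (p.map (shift hact g)) = wp e p := by
  induction p with
  | nil => rfl
  | cons h p ih =>
    rw [Walk.map_cons, wp_cons, wp_cons, ih]
    exact congrArg (· * wp e p) (hφ _ _)

theorem gam_map (hT : T.IsTree)
    (hact : ∀ (g : G) (u v : V), T.Adj u v → T.Adj (g • u) (g • v))
    (e : V → V → M) (he : ∀ u v, T.Adj u v → e u v * e v u = 1)
    (g : G) (hφ : ∀ u v, e (g • u) (g • v) = e u v)
    (u v : V) : gam hT e (g • u) (g • v) = gam hT e u v := by
  obtain ⟨p⟩ := hT.connected.preconnected u v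
  rw [gam_eq hT e he p, ← wp_map hact e g hφ]
  exact gam_eq hT e he (p.map (shift hact g))

end action

theorem t_POT : S_POT := by
  intro G V E _ _ _ T s t hT hO hInd e0
  classical
  let R : V → V → Prop := fun u v => ∃ x ∈ orbit G e0, s x = u ∧ t x = v
  let e : V → V → Multiplicative ℤ := fun u v =>
    if R u v then Multiplicative.ofAdd 1 else if R v u then Multiplicative.ofAdd (-1) else 1
  have hnot : ∀ u v, R u v → ¬ R v u := by
    rintro u v ⟨x, hx, rfl, rfl⟩ ⟨y, hy, h1, h2⟩
    exact hO.one y x h1 h2
  have he : ∀ u v, T.Adj u v → e u v * e v u = 1 := by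
    intro u v _
    by_cases h1 : R u v
    · have h2 := hnot u v h1
      have a1 : e u v = Multiplicative.ofAdd 1 := if_pos h1
      have a2 : e v u = Multiplicative.ofAdd (-1) := by
        show (if R v u then _ else if R u v then _ else _) = _
        rw [if_neg h2, if_pos h1]
      rw [a1, a2, ← ofAdd_add]; rfl
    · by_cases h2 : R v u
      · have a1 : e v u = Multiplicative.ofAdd 1 := if_pos h2
        have a2 : e u v = Multiplicative.ofAdd (-1) := by
          show (if R u v then _ else if R v u then _ else _) = _
          rw [if_neg h1, if_pos h2]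
        rw [a1, a2, ← ofAdd_add]; rfl
      · have a1 : e u v = 1 := by
          show (if R u v then _ else if R v u then _ else _) = _
          rw [if_neg h1, if_neg h2]
        have a2 : e v u = 1 := by
          show (if R v u then _ else if R u v then _ else _) = _
          rw [if_neg h2, if_neg h1]
        rw [a1, a2, one_mul]
  have horb : ∀ (g : G) (x : E), x ∈ orbit G e0 → g • x ∈ orbit G e0 := by
    rintro g x ⟨h, rfl⟩
    exact ⟨g * h, mul_smul g h e0⟩
  have hR1 : ∀ (g : G) (u v : V), R u v → R (g • u) (g • v) := by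
    rintro g u v ⟨x, hx, rfl, rfl⟩
    exact ⟨g • x, horb g x hx, hO.s_act g x, hO.t_act g x⟩
  have hR : ∀ (g : G) (u v : V), R (g • u) (g • v) ↔ R u v := by
    intro g u v
    refine ⟨fun h => ?_, hR1 g u v⟩
    have := hR1 g⁻¹ _ _ h
    rwa [inv_smul_smul, inv_smul_smul] at this
  have hact : ∀ (g : G) (u v : V), T.Adj u v → T.Adj (g • u) (g • v) := by
    intro g u v h
    obtain ⟨x, ⟨rfl, rfl⟩ | ⟨rfl, rfl⟩⟩ := hO.all u v h
    · have := hO.adj (g • x)
      rwa [hO.s_act, hO.t_act] at this
    · have := hO.adj (g • x)
      rw [hO.s_act, hO.t_act] at this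
      exact this.symm
  have hinv : ∀ (g : G) (u v : V), e (g • u) (g • v) = e u v := by
    intro g u v
    show (if R (g • u) (g • v) then _ else if R (g • v) (g • u) then _ else _) =
      (if R u v then _ else if R v u then _ else _)
    rw [if_congr (hR g u v) rfl (if_congr (hR g v u) rfl rfl)]
  have hgam : ∀ (g : G) (u v : V), gam hT e (g • u) (g • v) = gam hT e u v := fun g u v =>
    gam_map hT hact e he g (hinv g) u v
  obtain ⟨o⟩ := hT.connected.nonempty
  let F : G →* Multiplicative ℤ :=
    { toFun := fun g => gam hT e o (g • o)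
      map_one' := by rw [one_smul, gam_self hT e he]
      map_mul' := by
        intro g h
        rw [mul_smul, ← gam_mul hT e he o (g • o) (g • h • o), hgam] }
  have hF : F = 1 := by
    by_contra h
    exact hInd ⟨F, h⟩
  have hF' : ∀ g : G, gam hT e o (g • o) = 1 := fun g => DFunLike.congr_fun hF g
  refine ⟨fun v => Multiplicative.toAdd (gam hT e o v), ?_, ?_⟩
  · intro g v
    have : gam hT e o (g • v) = gam hT e o v := by
      rw [← gam_mul hT e he o (g • o) (g • v), hF', one_mul, hgam]
    show Multiplicative.toAdd (gam hT e o (g • v)) = _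
    rw [this]
  · intro x
    have h1 : gam hT e o (t x) = gam hT e o (s x) * e (s x) (t x) := by
      rw [← gam_mul hT e he o (s x) (t x), gam_adj hT e he (hO.adj x)]
    show Multiplicative.toAdd (gam hT e o (t x)) - Multiplicative.toAdd (gam hT e o (s x)) = _
    rw [h1, toAdd_mul, add_sub_cancel_left]
    by_cases hx : x ∈ orbit G e0
    · have h2 : R (s x) (t x) := ⟨x, hx, rfl, rfl⟩
      have a1 : e (s x) (t x) = Multiplicative.ofAdd 1 := if_pos h2
      rw [a1, if_pos hx]; rfl
    · have n1 : ¬ R (s x) (t x) := by
        rintro ⟨y, hy, h3, h4⟩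
        exact hx (hO.inj y x h3 h4 ▸ hy)
      have n2 : ¬ R (t x) (s x) := by
        rintro ⟨y, hy, h3, h4⟩
        exact hO.one y x h3 h4
      have a1 : e (s x) (t x) = 1 := by
        show (if R (s x) (t x) then _ else if R (t x) (s x) then _ else _) = _
        rw [if_neg n1, if_neg n2]
      rw [a1, if_neg hx]; rfl

end Pool.Agent.U873.LIP
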